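import Pool.Agent.helper56.P2B.SpecD

/-!
# p2b: PHX: places exist (helper79)
-/

set_option autoImplicit false

open Complex Metric Set Filter Topology MeasureTheory
open Pool.Agent.helper98.ILF
open WP (it)
open HY (UD T S hd UN RM)
open PM
open PL (TP LO PZ GJ INR PG DK ht tr DI CY SUBH hG hq BJ)
open P2 (SS FLS FL CLS FR TL)

noncomputable section

namespace P2B

theorem PHX (hFRX : P2.FRX_stmt) (hTLX : P2.TLX_stmt) (hTLS : P2.TLS_stmt) (hNZ : P2.V.NZ_stmt) (hCLA : PL.CLA_stmt) : PHX_stmt := by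
  intro f R hSS μ x₀ hTP x hx U hU a n t ha hVE hLO
  have hH : Tendsto (fun j => n j + t j) (U : Filter ℕ) atTop := by
    apply tendsto_atTop_mono' (U : Filter ℕ) _ (tendsto_id.mono_left hU)
    filter_upwards [hVE.le] with j hj
    simp only [id_eq]
    omega
  obtain ⟨χ, hχ⟩ := hFRX f R hSS x hx U hU (fun j => n j + t j) hH
  obtain ⟨G, hG⟩ := hTLX f R hSS x hx U (fun j => n j + t j) χ hχ t (Eventually.of_forall (fun j => Nat.le_add_left _ _))
  obtain ⟨hPG, hCY⟩ := hNZ f R hSS μ x₀ hTP x hx U a n t hU ha hVE χ hχ t G (Eventually.of_forall (fun j => le_rfl)) hG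
  have hT := hTLS f R hSS x hx U (fun j => n j + t j) χ hχ t G hG
  have hlo := hT.2.2.2.2.1 a ha (by
    filter_upwards [hLO] with j hj
    simp only [Nat.add_sub_cancel]
    exact hj)
  have hC := hCLA (χ '' UD) G hPG
  have hTY : TY (χ '' UD) G ∧ G '' (χ '' UD) = UD := by
    rcases hC with h | h | h | h
    · exact ⟨Or.inl h.1, h.2⟩
    · obtain ⟨p, hp, h1, h2⟩ := h
      exact ⟨Or.inr (Or.inl ⟨p, hp, h1⟩), h2⟩
    · obtain ⟨p, hp, b, h1, h2⟩ := h
      exact ⟨Or.inr (Or.inr ⟨p, hp, b, h1⟩), h2⟩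
    · obtain ⟨g, hg, _⟩ := h
      exact absurd hg (hCY g)
  exact ⟨χ, G, ⟨hχ, hG, hPG, hTY.1, hTY.2, hT.2.1, hlo⟩⟩

end P2B
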